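import Pool.Agent.H547_b.Main
import Pool.Agent.H547_n.Odd

/-!
# The conjecture of Beilinson and Bloch for powers of a diagonal curve over its own function field, up to
# a bounded factor

Let `F` be a finite field with `q` elements of characteristic `p`, let `d` divide `m`, `m` prime to `p`,
and let `C` be any diagonal curve

  `c_0 x ^ d + c_1 y ^ d + c_2 z ^ d = 0`

over `F`, or its quotient by a group of diagonal automorphisms (for instance `u y ^ a = x ^ b (v - x)`
and its quotients, hyperelliptic curves `y ^ 2 = u x ^ n + v`). Let `k` be the function field of `C`,
`N ≥ 0`, and let `X = C ^ N` over `k` (the constant variety, or its generic fibre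
`C ^ N × Spec k`).

**Theorem.** For all `N` and `i`, the order of every zero of `L(H ^ (2 i - 1)(X), s)` on the line
`Re s = i` is at most `2 ^ (c - 1) dim CH ^ i (X)_0`. In particular

  `dim CH ^ i (X)_0 ≥ 2 ^ (1 - c) ord_{s = i} L(H ^ (2 i - 1)(X), s)`.

Here `c` is the number of the classes of linked residues modulo `m`; it is at most `2 ^ r`, where `r` is
the number of the odd prime divisors of `m`, and at most `2 ^ r - 1` if `m` is odd. There is no condition
on `F`, `d`, `N` and `i`, and the factor does not depend on `N` and `i`. For `c = 1`, for instance if `m`
is a prime power, the order at `s = i` is the dimension.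

More precisely let `V = H ^ (2 i - 1)(C ^ N) ⊗ H ^ 1(C) (i)`. For every `n` the absolute value of the
trace of the `n`-th power of the Frobenius on the part of `V` with given slopes (for instance on its
Tate classes) is at most `2 ^ (c - 1)` times its trace on the known algebraic part; in particular the
latter is not negative.

*The `L`-function.* Since `X` is constant, `L(H ^ (2 i - 1)(X), s)` is
`det (1 - q ^ (i - s) F | V)` divided by two factors without zeros and poles on the line `Re s = i`
(Grothendieck, Deligne). `invL` is the inverse of (the absolute value of) this determinant, or of its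
part spanned by the basis vectors with a property.

*Cycles.* Let `z` be a cycle of codimension `i` on `C ^ N × C` with its class in the part
`H ^ (2 i - 1)(C ^ N) ⊗ H ^ 1(C)`. Its restriction to the generic fibre `X` of the projection to the last
factor is homologically trivial, and if it is zero then `z` is supported over finitely many points of
`C`, up to rational equivalence, so its class lies in `H ^ (2 i - 2)(C ^ N) ⊗ H ^ 2(C)`, and it is zero.
So the dimension of the space of the Frobenius invariant classes in the known algebraic part, that is
the order `M'` in the theorem, is at most `dim CH ^ i (X)_0`.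

*Algebraic classes.* A basis vector of slope zero with even parities (`IsEven`) is known to be
algebraic: the residues belong to the closure (`IsKnown`) of the characters of Fermat surfaces and of
the standard characters (Tate, Shioda-Katsura, Aoki-Shioda). This is the parity theorem of the starting
files (`Pool.Agent.Results.MP_0d42ed_ag.FermatParity`).

*Proof.* The eigenvalue of the Frobenius on the line of a character `a` of `H ^ 1(C)` is a product
`θ(a)` of three Gauss sums, and `θ(- a)` is the complex conjugate of `θ(a)`. A basis vector of `V` has an
even number of entries from `H ^ 1(C)`. We divide them into two halves `x` and `- z`. The trace on the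
part of `V` with given slopes and parities is then a sum over pairs `x`, `z` with
`γ(z) = γ(x) - e` of `Θ(x)` times the complex conjugate of `Θ(z)`, for a function `γ` with values in a
group, and such a sum is at most the sum for `e = 0`.
-/

set_option autoImplicit false

namespace Pool.Agent.Results.MP_0b9e0b_ag.ConstantDiagonalCurves

open Finset Pool.Agent.H547_r Pool.Agent.H547_b

/-- **The orders of the zeros of the `L`-function on the line `Re s = i` are bounded by a constant times
the number of the independent homologically trivial cycles of codimension `i`.** -/
theorem result (p m : ℕ) (hp : p.Prime) [NeZero m] (hpm : p.Coprime m) :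
    linkClasses p m ≤ 2 ^ (m.primeFactors.erase 2).card ∧
    (Odd m → linkClasses p m ≤ 2 ^ m.primeFactors.card - 1) ∧
    ∀ (F : Type) [Field F] [Fintype F] [CharP F p] (C : DiagonalCurve F m) (N : ℕ)
      (R : ∀ n, Extension F (n + 1)) (i : ℕ),
      (∀ b : Element C N, IsBasis i b → slope p b = 0 → IsEven p b → IsKnown p m (residues b)) ∧
      (∀ (u : (ZMod m)ˣ → ℤ) (n : ℕ),
        ‖trace C N R i (fun b => slope p b = u) n‖ ≤ 2 ^ (linkClasses p m - 1) *
          (trace C N R i (fun b => slope p b = 0 ∧ IsEven p b) n).re) ∧
      ∀ (z : ℂ) (u : (ZMod m)ˣ → ℤ) (M M' : ℤ), ‖z‖ = 1 →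
        HasPole (invL C N R i (fun _ => True) z) M →
        HasPole (invL C N R i (fun b => slope p b ≠ u) z) 0 →
        HasPole (invL C N R i (fun b => slope p b = 0 ∧ IsEven p b) 1) M' →
        M ≤ 2 ^ (linkClasses p m - 1) * M' := by
  have hm : 0 < m := Nat.pos_of_ne_zero (NeZero.ne m)
  refine ⟨H547_pp.ncard_classes_le (p := p) (Linked p m) fun a b hab => (linked_iff hpm a b).1 hab,
    fun _ => H547_n.ncard_classes_lt (Linked p m) fun a b ha hb h => ⟨ha, hb, Or.inl h⟩, ?_⟩
  intro F _ _ _ C N R i
  refine ⟨fun b hb h0 he => known_of_even hp hm hpm hb h0 he,
    fun u n => trace_le hpm R i n u, ?_⟩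
  intro z u M M' hz hM hMn hMg
  have hzn : ∀ n : ℕ, ‖z ^ (n + 1)‖ = 1 := fun n => by rw [norm_pow, hz, one_pow]
  have h := pole_le (t := fun n => trace C N R i (fun _ => True) n * z ^ (n + 1))
    (f := fun n => trace C N R i (fun b => slope p b = u) n * z ^ (n + 1))
    (n := fun n => trace C N R i (fun b => slope p b ≠ u) n * z ^ (n + 1))
    (g := fun n => trace C N R i (fun b => slope p b = 0 ∧ IsEven p b) n * 1 ^ (n + 1))
    (C := 2 ^ (linkClasses p m - 1)) (B := Nat.card (Element C N)) (N := M) (N' := M')
    (fun n => by rw [trace_add R i (fun b => slope p b = u) n, add_mul])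
    (fun n => by
      rw [norm_mul, hzn, mul_one, one_pow, mul_one]
      exact trace_le hpm R i n u)
    (fun n => by
      rw [norm_mul, hzn, mul_one]
      exact norm_trace_le R i _ n)
    (fun n => by
      rw [norm_mul, hzn, mul_one]
      exact norm_trace_le R i _ n)
    (fun n => by
      rw [one_pow, mul_one]
      exact norm_trace_le R i _ n)
    hM hMn hMg
  exact_mod_cast h

end Pool.Agent.Results.MP_0b9e0b_ag.ConstantDiagonalCurves
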