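import Mathlib
import Pool.Agent.Helper33_dom.BBFinal

/-!
# The formula of Beilinson and Bloch for constant abelian varieties over function fields:
# dominating slopes

Let `q = p ^ a`, let `A` be an abelian variety and `C` a smooth projective geometrically connected
curve over the field with `q` elements, `k` the function field of `C` and `X = A_k`. Every global
function field with field of constants of `q` elements is such a `k`.

`V` is the first cohomology of `A` and `W` the first cohomology of `C` (coefficients extended to
the complex numbers), `F` and `G` are the Frobenius endomorphisms, `P` is the set of closed points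
of `C`, that is, of places of `k`, and `deg` is the degree; the number of points of `C` over the
extension of degree `m` is the sum of the degrees of the closed points of degree dividing `m` and
is equal to `1 + q ^ m - trace (G ^ m)`.

Let `π i`, `i ∈ I`, be finitely many Weil `q`-numbers in CM fields `K i`, `T` a subset of `I`, and `S`
a set of supersingular Weil numbers. The eigenvalues of `F` are conjugates of the `π i` with
`i ∈ T` and elements of `S`; the eigenvalues of `G` are conjugates of the `π i` with arbitrary
`i ∈ I` and elements of `S`. We suppose:

* for `i ∈ T`, `π i` is of dominant type (the new case), of pair type or of flip type. Dominant type: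
  let `w τ = 2 v (τ (π i)) - a` be the normalised valuations, `τ` running through the embeddings of
  `K i` in the algebraic closure of the `p`-adic numbers; there is `τ₀` with `w τ₀ ≠ 0` such that the
  sum of all `|w τ|` is less than `4 |w τ₀|`, or it is equal to `4 |w τ₀|` and `π i` is not of norm
  type: there is no subfield `E` of `K i`, different from `K i` and not totally real, such that for
  every embedding of `E` the sum of the `w τ` over its extensions `τ` to `K i` is zero. There is no
  condition on the Galois group or on the degree of `K i`. For instance (commutative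
  endomorphism algebra) the slopes are `0` and `1` once and `1/2` otherwise, or the `p`-rank is two
  and all other slopes are `1/2`;
* for `i ∈ T` and `j ≠ i` in `I`, embeddings of `K i` and `K j` are cross flipped: some automorphism
  of the complex numbers fixes one and conjugates the other.

So there is no condition on the other simple factors of the Jacobian variety of `C`, except that
their fields are in general position with respect to those of `A`.

Since `A` has good reduction, `L (H ^ (2 k + 1) (X), s)` is the product over `v` in `P` of
`det (1 - (q ^ (- s)) ^ deg v • (⋀ ^ (2 k + 1) F) ^ deg v)⁻¹`. The theorem says, for all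
`k ≥ 0` (the codimension is `i = k + 1`): this product converges for `Re s > i + 1 / 2`, has a
meromorphic continuation to the complex plane, and the order of the continuation at `s = i` is the
dimension of `algebraicClasses`: the space of classes in `H ^ (2 i - 1) (A) ⊗ H ^ 1 (C)` on which
the Frobenius acts as `q ^ i` and which are linear combinations of products of `i - 1` classes of
divisors on `A` and a correspondence between `A` and `C` (all defined over extensions of the base
field).

By the theorem of Tate, a class in degree two of an abelian variety which is a Tate class over some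
extension is a linear combination of classes of divisors, so that all of `algebraicClasses` comes
from cycles of codimension `i` on `A × C`, and these give homologically trivial cycles on `X`. By
the theorem of Kahn (based on Kimura, O'Sullivan, Soulé, Geisser) a motive of abelian type over a
finite field all of whose Tate classes are algebraic has no other cycles modulo rational
equivalence; so the dimension is that of `CH ^ i (X)_0`, and the formula of Beilinson and Bloch holds
for `X`, for all `i`.
-/

set_option autoImplicit false

namespace Pool.Agent.Results.MP_0b9e0b_ag.ConstantDominantSlopes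

open NumberField Module Pool.Agent.H194R3.Tate Pool.Agent.Helper33Dom Pool.Agent.W484.BB

theorem result (p : ℕ) [Fact p.Prime] (a : ℕ) (ha : 0 < a)
    {I : Type} [Finite I] (K : I → Type) [∀ i, Field (K i)] [∀ i, NumberField (K i)]
    [∀ i, IsCMField (K i)] (π : ∀ i, K i)
    (hweil : ∀ i, ∀ φ : K i →+* ℂ, ‖φ (π i)‖ ^ 2 = (p : ℝ) ^ a) (T : Set I)
    (hπ : ∀ i ∈ T, DominantType p a (π i) ∨ PairType p a (π i) ∨ FlipType p a (π i))
    (hcross : ∀ i ∈ T, ∀ j, i ≠ j → ∀ (φ : K i →+* ℂ) (ψ : K j →+* ℂ), CrossFlipped φ ψ)
    (S : Set ℂ) (hS : ∀ μ ∈ S, ∃ N : ℕ, 0 < N ∧ μ ^ (2 * N) = ((p : ℂ) ^ a) ^ N)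
    {V : Type} [AddCommGroup V] [Module ℂ V] [FiniteDimensional ℂ V] (F : V →ₗ[ℂ] V)
    (hF : Submodule.span ℂ {v : V | (∃ i ∈ T, ∃ σ : K i →+* ℂ, F v = σ (π i) • v) ∨
      ∃ μ ∈ S, F v = μ • v} = ⊤)
    {W : Type} [AddCommGroup W] [Module ℂ W] [FiniteDimensional ℂ W] (G : W →ₗ[ℂ] W)
    (hG : Submodule.span ℂ {w : W | (∃ i, ∃ σ : K i →+* ℂ, G w = σ (π i) • w) ∨
      ∃ μ ∈ S, G w = μ • w} = ⊤)
    {P : Type} (deg : P → ℕ) (hdeg : ∀ v, 0 < deg v)
    (hfin : ∀ m, 0 < m → {v | deg v ∣ m}.Finite)
    (hcount : ∀ m (hm : 0 < m), (∑ v ∈ (hfin m hm).toFinset, (deg v : ℂ)) =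
      1 + ((p : ℂ) ^ a) ^ m - LinearMap.trace ℂ W (G ^ m))
    (k : ℕ) :
    ∃ Λ : ℂ → ℂ, (∀ s, MeromorphicAt Λ s) ∧
      (∀ s : ℂ, (k : ℝ) + 1 + 1 / 2 < s.re →
        HasProd (fun v => (LinearMap.det (1 - (((p : ℂ) ^ a) ^ (-s)) ^ deg v •
          exteriorPower.map (2 * k + 1) F ^ deg v))⁻¹) (Λ s)) ∧
      meromorphicOrderAt Λ ((k : ℂ) + 1) =
        ((finrank ℂ (algebraicClasses F G ((p : ℂ) ^ a) k) : ℤ) : WithTop ℤ) :=
  beilinson_bloch p a ha π hweil T hπ hcross S hS F hF G hG deg hdeg hfin hcount k

end Pool.Agent.Results.MP_0b9e0b_ag.ConstantDominantSlopes
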